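import Pool.Agent.Run7.h841.FQ.Iface

/-!
# Piece BOX of the project FQ (interface: `Pool.Agent.Run7.h841.FQ.Iface`): long flow boxes
-/

set_option autoImplicit false

namespace Run7.h617.FQ

open Set Topology Filter
open Run7.h841.TM Run7.h841.FQ

section flow

variable {Φ : ℝ → N5 → N5} (hΦ : IsFlow Φ)

include hΦ

lemma contDiff_at (t : ℝ) : ContDiff ℝ (⊤ : ℕ∞) (Φ t) :=
  hΦ.smooth.comp (contDiff_const.prodMk contDiff_id)

lemma contDiff_orb (z : N5) : ContDiff ℝ (⊤ : ℕ∞) (fun t => Φ t z) :=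
  hΦ.smooth.comp (contDiff_id.prodMk contDiff_const)

lemma neg_comp (t : ℝ) (x : N5) : Φ (-t) (Φ t x) = x := by
  rw [← hΦ.add, neg_add_cancel, hΦ.zero]

/-- the flow as a homeomorphism -/
def flowHomeo (t : ℝ) : N5 ≃ₜ N5 where
  toFun := Φ t
  invFun := Φ (-t)
  left_inv := neg_comp hΦ t
  right_inv x := by have := neg_comp hΦ (-t) x; rwa [neg_neg] at this
  continuous_toFun := (contDiff_at hΦ t).continuous
  continuous_invFun := (contDiff_at hΦ (-t)).continuous

/-- The velocity at a point which is not fixed does not vanish. -/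
lemma velocity_ne {z : N5} (hz : ¬ ∀ t, Φ t z = z) {X : N5} (hX : HasDerivAt (fun t => Φ t z) X 0) :
    X ≠ 0 := by
  rintro rfl
  apply hz
  have key : ∀ t : ℝ, HasDerivAt (fun t => Φ t z) 0 t := by
    intro t
    have h1 : HasFDerivAt (Φ t) (fderiv ℝ (Φ t) (Φ 0 z)) (Φ 0 z) :=
      ((contDiff_at hΦ t).differentiable (by simp)).differentiableAt.hasFDerivAt
    have h2 : HasDerivAt (fun s => Φ t (Φ s z)) ((fderiv ℝ (Φ t) (Φ 0 z)) 0) 0 :=
      HasFDerivAt.comp_hasDerivAt (f := fun s => Φ s z) (0 : ℝ) h1 hX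
    rw [map_zero] at h2
    have h3 : HasDerivAt (fun u : ℝ => u - t) 1 t := (hasDerivAt_id t).sub_const t
    have h2' : HasDerivAt (fun s => Φ t (Φ s z)) 0 (t - t) := by rw [sub_self]; exact h2
    have h4 := HasDerivAt.scomp (h := fun u : ℝ => u - t) t h2' h3
    rw [smul_zero] at h4
    have h5 : (fun s => Φ t (Φ s z)) ∘ (fun u : ℝ => u - t) = fun t => Φ t z := by
      funext u
      change Φ t (Φ (u - t) z) = Φ u z
      rw [← hΦ.add]
      congr 1
      ring
    rw [h5] at h4
    exact h4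
  intro t
  have h1 : Φ t z = Φ 0 z := is_const_of_deriv_eq_zero (fun t => (key t).differentiableAt)
    (fun t => (key t).deriv) t 0
  rw [h1, hΦ.zero]

end flow

/-- **BOX** -/
theorem box : S_BOX := by
  classical
  intro Φ hΦ z hz T hT hper
  set F : ℝ × N5 → N5 := fun p => Φ p.1 p.2 with hF
  have hFd : HasStrictFDerivAt F (fderiv ℝ F (0, z)) (0, z) :=
    hΦ.smooth.contDiffAt.hasStrictFDerivAt (by simp)
  set F' := fderiv ℝ F (0, z) with hF'
  -- the velocity
  have hX : HasDerivAt (fun t => Φ t z) (F' (1, 0)) 0 := by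
    have h1 : HasDerivAt (fun t : ℝ => (t, z)) ((1 : ℝ), (0 : N5)) 0 :=
      (hasDerivAt_id (0 : ℝ)).prodMk (hasDerivAt_const _ _)
    exact HasFDerivAt.comp_hasDerivAt (f := fun t : ℝ => (t, z)) (0 : ℝ)
      hFd.hasFDerivAt h1
  have hX0 : F' (1, 0) ≠ 0 := velocity_ne hΦ hz hX
  have hF2 : ∀ w : N5, F' (0, w) = w := by
    intro w
    have h1 : HasFDerivAt (fun x : N5 => ((0 : ℝ), x)) (ContinuousLinearMap.inr ℝ ℝ N5) z :=
      (hasFDerivAt_const (0 : ℝ) z).prodMk (hasFDerivAt_id z)
    have h2 : HasFDerivAt (F ∘ fun x : N5 => ((0 : ℝ), x)) (F'.comp (ContinuousLinearMap.inr ℝ ℝ N5)) z :=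
      HasFDerivAt.comp (g := F) (f := fun x : N5 => ((0 : ℝ), x)) z hFd.hasFDerivAt h1
    have h3 : (F ∘ fun x : N5 => ((0 : ℝ), x)) = id := by
      funext x
      exact hΦ.zero x
    rw [h3] at h2
    have h4 := h2.unique (hasFDerivAt_id z)
    have h5 := congrArg (fun A : N5 →L[ℝ] N5 => A w) h4
    exact h5
  -- the linear coordinates
  let E0 : (Fin 5 → ℝ) ≃L[ℝ] N5 := (EuclideanSpace.equiv (Fin 5) ℝ).symm
  have hy0 : E0 (Pi.single 0 1) ≠ 0 := by
    intro h
    have h1 : (Pi.single 0 1 : Fin 5 → ℝ) = 0 := by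
      apply E0.injective
      rw [h, map_zero]
    have h2 := congrFun h1 0
    simp at h2
  obtain ⟨B0, hB0⟩ := SeparatingDual.exists_continuousLinearEquiv_apply_eq (R := ℝ) hy0 hX0
  let A : (Fin 5 → ℝ) ≃L[ℝ] N5 := E0.trans B0
  have hA0 : A (Pi.single 0 1) = F' (1, 0) := hB0
  let e0 : Fin 5 → ℝ := Pi.single 0 1
  let π : (Fin 5 → ℝ) →L[ℝ] (Fin 5 → ℝ) :=
    ContinuousLinearMap.id ℝ _ - (ContinuousLinearMap.proj (R := ℝ) (φ := fun _ : Fin 5 => ℝ) 0).smulRight e0
  have hπ : ∀ v, π v = Function.update v 0 0 := by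
    intro v
    funext i
    change v i - v 0 * (Pi.single 0 1 : Fin 5 → ℝ) i = _
    by_cases hi : i = 0
    · subst hi
      simp
    · rw [Pi.single_eq_of_ne hi, Function.update_of_ne hi, mul_zero, sub_zero]
  let G : (Fin 5 → ℝ) → N5 := fun v => Φ (v 0) (z + A (π v))
  have hG0 : ∀ t : ℝ, G (t • e0) = Φ t z := by
    intro t
    have h1 : π (t • e0) = 0 := by
      rw [hπ]
      funext i
      by_cases hi : i = 0
      · subst hi; simp
      · rw [Function.update_of_ne hi]
        change t * (Pi.single 0 1 : Fin 5 → ℝ) i = 0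
        rw [Pi.single_eq_of_ne hi, mul_zero]
    have h2 : (t • e0) 0 = t := by
      change t * (Pi.single 0 1 : Fin 5 → ℝ) 0 = t
      simp
    change Φ ((t • e0) 0) (z + A (π (t • e0))) = _
    rw [h1, h2, map_zero, add_zero]
  have hGt : ∀ (t : ℝ) (v : Fin 5 → ℝ), G v = Φ t (G (v - t • e0)) := by
    intro t v
    have h1 : π (v - t • e0) = π v := by
      rw [hπ, hπ]
      funext i
      by_cases hi : i = 0
      · subst hi; simp
      · rw [Function.update_of_ne hi, Function.update_of_ne hi]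
        change v i - t * (Pi.single 0 1 : Fin 5 → ℝ) i = v i
        rw [Pi.single_eq_of_ne hi, mul_zero, sub_zero]
    have h2 : (v - t • e0) 0 = v 0 - t := by
      change v 0 - t * (Pi.single 0 1 : Fin 5 → ℝ) 0 = v 0 - t
      simp
    change Φ (v 0) (z + A (π v)) = Φ t (Φ ((v - t • e0) 0) (z + A (π (v - t • e0))))
    rw [h1, h2, ← hΦ.add]
    congr 1
    ring
  have hGc : Continuous G :=
    hΦ.smooth.continuous.comp ((continuous_apply 0).prodMk
      (continuous_const.add (A.continuous.comp π.continuous)))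
  -- the derivative at zero
  have hGd : HasStrictFDerivAt G (A : (Fin 5 → ℝ) →L[ℝ] N5) 0 := by
    have h1 : HasStrictFDerivAt (fun v : Fin 5 → ℝ => (v 0, z + A (π v)))
        ((ContinuousLinearMap.proj (R := ℝ) (φ := fun _ : Fin 5 => ℝ) 0).prod
          ((A : (Fin 5 → ℝ) →L[ℝ] N5).comp π)) 0 := by
      refine HasStrictFDerivAt.prodMk ?_ ?_
      · exact (ContinuousLinearMap.proj (R := ℝ) (φ := fun _ : Fin 5 => ℝ) 0).hasStrictFDerivAt
      · exact ((A : (Fin 5 → ℝ) →L[ℝ] N5).comp π).hasStrictFDerivAt.const_add z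
    have h0 : (fun v : Fin 5 → ℝ => (v 0, z + A (π v))) 0 = (0, z) := by
      simp
    have h2 : HasStrictFDerivAt F F' ((fun v : Fin 5 → ℝ => (v 0, z + A (π v))) 0) := by
      rw [h0]; exact hFd
    have h3 := HasStrictFDerivAt.comp (0 : Fin 5 → ℝ) h2 h1
    have h4 : F'.comp ((ContinuousLinearMap.proj (R := ℝ) (φ := fun _ : Fin 5 => ℝ) 0).prod
          ((A : (Fin 5 → ℝ) →L[ℝ] N5).comp π)) = (A : (Fin 5 → ℝ) →L[ℝ] N5) := by
      ext1 v
      change F' (v 0, A (π v)) = A v
      have h5 : ((v 0, A (π v)) : ℝ × N5) = v 0 • ((1 : ℝ), (0 : N5)) + (0, A (π v)) := by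
        ext1
        · simp
        · simp
      rw [h5, map_add, map_smul, hF2, ← hA0, ← map_smul, ← map_add]
      congr 1
      change v 0 • e0 + (v - v 0 • e0) = v
      abel
    rw [h4] at h3
    exact h3
  -- a neighbourhood of zero where G is an open embedding
  let Ψ := hGd.toOpenPartialHomeomorph G
  have hΨ : ∀ v, Ψ v = G v := fun v => rfl
  have hΨ0 : (0 : Fin 5 → ℝ) ∈ Ψ.source := hGd.mem_toOpenPartialHomeomorph_source
  have hmap0 : ∀ v ∈ Ψ.source, map G (𝓝 v) = 𝓝 (G v) := fun v hv => Ψ.map_nhds_eq hv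
  let Ω : Set (Fin 5 → ℝ) := {v | v - v 0 • e0 ∈ Ψ.source}
  have hΩo : IsOpen Ω := by
    refine Ψ.open_source.preimage ?_
    exact continuous_id.sub ((continuous_apply 0).smul continuous_const)
  have hmap : ∀ v ∈ Ω, map G (𝓝 v) = 𝓝 (G v) := by
    intro v hv
    have h1 : G = (flowHomeo hΦ (v 0)) ∘ (G ∘ (Homeomorph.subRight (v 0 • e0))) := by
      funext w
      exact hGt (v 0) w
    have h2 : map (Homeomorph.subRight (v 0 • e0)) (𝓝 v) = 𝓝 (v - v 0 • e0) :=
      (Homeomorph.subRight (v 0 • e0)).map_nhds_eq v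
    rw [h1, ← Filter.map_map, ← Filter.map_map, h2, hmap0 _ hv]
    exact (flowHomeo hΦ (v 0)).map_nhds_eq _
  -- the compact arc
  let K : Set (Fin 5 → ℝ) := (fun t : ℝ => t • e0) '' Icc (-T) T
  have hKc : IsCompact K := isCompact_Icc.image (continuous_id.smul continuous_const)
  have hinj : InjOn G K := by
    rintro _ ⟨t, ht, rfl⟩ _ ⟨s, hs, rfl⟩ h
    change t • e0 = s • e0
    have h1 : G (t • e0) = G (s • e0) := h
    rw [hG0, hG0] at h1
    have h2 : Φ (t - s) z = z := by
      have h3 : Φ (-s) (Φ t z) = z := by rw [h1, neg_comp hΦ]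
      rw [← hΦ.add] at h3
      rw [← h3]
      rw [h3]
      convert h3 using 2
      ring
    have h3 := hper (t - s) (by
      rw [abs_le]
      constructor <;> linarith [ht.1, ht.2, hs.1, hs.2]) h2
    rw [sub_eq_zero.1 h3]
  have hKΩ : K ⊆ Ω := by
    rintro _ ⟨t, -, rfl⟩
    change t • e0 - (t • e0) 0 • e0 ∈ Ψ.source
    have h2 : (t • e0) 0 = t := by
      change t * (Pi.single 0 1 : Fin 5 → ℝ) 0 = t
      simp
    rw [h2, sub_self]
    exact hΨ0
  have hloc : ∀ x ∈ K, ∃ u ∈ 𝓝 x, InjOn G u := by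
    rintro _ ⟨t, -, rfl⟩
    refine ⟨(fun v => v - t • e0) ⁻¹' Ψ.source, ?_, ?_⟩
    · refine (continuous_id.sub continuous_const).continuousAt.preimage_mem_nhds ?_
      change Ψ.source ∈ 𝓝 (t • e0 - t • e0)
      rw [sub_self]
      exact Ψ.open_source.mem_nhds hΨ0
    · intro v hv w hw h
      rw [hGt t v, hGt t w] at h
      have h1 := Ψ.injOn hv hw ((flowHomeo hΦ t).injective h)
      exact sub_left_injective h1
  obtain ⟨N, hN, hNinj⟩ := hinj.exists_mem_nhdsSet hKc (fun x _ => hGc.continuousAt) hloc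
  obtain ⟨W, hWo, hKW, hWN⟩ := mem_nhdsSet_iff_exists.1 hN
  obtain ⟨ε, hε, hth⟩ := hKc.exists_thickening_subset_open (hWo.inter hΩo)
    (subset_inter hKW hKΩ)
  let Bo : Set (Fin 5 → ℝ) := {v | |v 0| < T + ε ∧ ∀ i, i ≠ 0 → |v i| < ε}
  have hBo : Bo ⊆ W ∩ Ω := by
    intro v hv
    apply hth
    rw [Metric.mem_thickening_iff]
    let c : ℝ := max (-T) (min T (v 0))
    have hc : c ∈ Icc (-T) T := by
      constructor
      · exact le_max_left _ _
      · exact max_le (by linarith) (min_le_left _ _)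
    refine ⟨c • e0, ⟨c, hc, rfl⟩, ?_⟩
    rw [dist_pi_lt_iff hε]
    intro i
    by_cases hi : i = 0
    · subst hi
      have h2 : (c • e0) 0 = c := by
        change c * (Pi.single 0 1 : Fin 5 → ℝ) 0 = c
        simp
      rw [h2, Real.dist_eq, abs_lt]
      have h3 := abs_lt.1 hv.1
      constructor
      · rw [neg_lt_sub_iff_lt_add]
        have : max (-T) (min T (v 0)) < v 0 + ε := by
          rw [max_lt_iff]
          exact ⟨by linarith, lt_of_le_of_lt (min_le_right _ _) (by linarith)⟩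
        linarith
      · rw [sub_lt_iff_lt_add']
        have : v 0 < max (-T) (min T (v 0)) + ε := by
          rcases le_total T (v 0) with h | h
          · have h4 : max (-T) (min T (v 0)) = T := by
              rw [min_eq_left h, max_eq_right (by linarith)]
            rw [h4]
            linarith
          · rw [min_eq_right h]
            linarith [le_max_right (-T) (v 0)]
        linarith
    · have h2 : (c • e0) i = 0 := by
        change c * (Pi.single 0 1 : Fin 5 → ℝ) i = 0
        rw [Pi.single_eq_of_ne hi, mul_zero]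
      rw [h2, dist_zero_right, Real.norm_eq_abs]
      exact hv.2 i hi
  have hBoo : IsOpen Bo := by
    have h1 : Bo = {v | |v 0| < T + ε} ∩ ⋂ i : Fin 5, {v | i ≠ 0 → |v i| < ε} := by
      ext v
      simp only [Bo, mem_ofPred_eq, mem_inter_iff, mem_iInter]
    rw [h1]
    refine (isOpen_lt (continuous_abs.comp (continuous_apply 0)) continuous_const).inter
      (isOpen_iInter_of_finite fun i => ?_)
    by_cases hi : i = 0
    · subst hi
      simp
    · simp only [ne_eq, hi, not_false_eq_true, forall_const]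
      exact isOpen_lt (continuous_abs.comp (continuous_apply i)) continuous_const
  have hinjB : InjOn G Bo := fun v hv w hw h => hNinj (hWN (hBo hv).1) (hWN (hBo hw).1) h
  let P : PartialEquiv (Fin 5 → ℝ) N5 := hinjB.toPartialEquiv G Bo
  let H : OpenPartialHomeomorph (Fin 5 → ℝ) N5 :=
    OpenPartialHomeomorph.ofContinuousOpenRestrict P hGc.continuousOn (by
      rw [isOpenMap_iff_nhds_le]
      rintro ⟨v, hv⟩
      have h1 : map (P.source.domRestrict P) (𝓝 (⟨v, hv⟩ : P.source)) = map G (𝓝 v) := by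
        have h2 : P.source.domRestrict P = G ∘ Subtype.val := rfl
        rw [h2, ← Filter.map_map, map_nhds_subtype_val]
        congr 1
        exact hBoo.nhdsWithin_eq hv
      rw [h1, hmap v (hBo hv).2]
      exact le_rfl) hBoo
  have hHs : H.symm.toPartialEquiv.target = Bo := rfl
  have hHf : ∀ v, H.symm.toPartialEquiv.symm v = G v := fun v => rfl
  refine ⟨ε, H.symm.toPartialEquiv, ?_⟩
  refine
    { chart :=
        { open_source := H.open_target
          conv := convex_univ
          target := ⟨Bo, hBoo, (inter_univ _).symm⟩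
          cont := H.symm.continuousOn
          cont_symm := H.continuousOn }
      T_pos := hT
      ε_pos := hε
      tgt := rfl
      ctr := ?_
      flow := ?_ }
  · rw [hHf]
    have h1 := hG0 0
    rw [zero_smul, hΦ.zero] at h1
    exact h1
  · intro v _ s _
    rw [hHf, hHf]
    have h1 : π (Function.update v 0 (v 0 + s)) = π v := by
      rw [hπ, hπ, Function.update_idem]
    change Φ ((Function.update v 0 (v 0 + s)) 0) (z + A (π (Function.update v 0 (v 0 + s)))) =
      Φ s (Φ (v 0) (z + A (π v)))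
    rw [h1, Function.update_self, ← hΦ.add, add_comm s]

end Run7.h617.FQ
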